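import Pool.Agent.W488.IW.Stm

/-! Project IW: the kernel representation of `fW`. -/

set_option autoImplicit false

namespace Pool.Agent.W581.IW.Fk

open Pool.Agent.W488.IW MeasureTheory Set Filter Topology

/-- twofold primitive of a continuous function supported in `[1/2,2]` -/
lemma double (k : ℝ → ℝ) (hk : Continuous k) (hlow : ∀ t, t ≤ 1 / 2 → k t = 0)
    (hhigh : ∀ t, 2 ≤ t → k t = 0) (t : ℝ) :
    ∫ u in (0 : ℝ)..t, (∫ s in (0 : ℝ)..u, k s) = ∫ s in (1 / 2 : ℝ)..2, k s * max (t - s) 0 := by
  have hparts := intervalIntegral.integral_mul_deriv_eq_deriv_mul (a := (0 : ℝ)) (b := t)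
    (u := fun x => ∫ s in (0 : ℝ)..x, k s) (v := fun x => x) (u' := k) (v' := fun _ => (1 : ℝ))
    (fun x _ => intervalIntegral.integral_hasDerivAt_right (hk.intervalIntegrable _ _)
      (hk.stronglyMeasurableAtFilter _ _) hk.continuousAt)
    (fun x _ => hasDerivAt_id x) (hk.intervalIntegrable _ _) (continuous_const.intervalIntegrable _ _)
  have h1 : ∫ u in (0 : ℝ)..t, (∫ s in (0 : ℝ)..u, k s) = ∫ s in (0 : ℝ)..t, k s * (t - s) := by
    have h2 : ∫ s in (0 : ℝ)..t, k s * (t - s)
        = (∫ s in (0 : ℝ)..t, k s) * t - ∫ s in (0 : ℝ)..t, k s * s := by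
      rw [← intervalIntegral.integral_mul_const, ← intervalIntegral.integral_sub]
      · refine intervalIntegral.integral_congr fun s _ => ?_
        ring
      · exact (hk.mul continuous_const).intervalIntegrable _ _
      · exact (hk.mul continuous_id).intervalIntegrable _ _
    rw [h2]
    simp only [mul_one, intervalIntegral.integral_same, zero_mul, sub_zero] at hparts
    exact hparts
  rw [h1]
  have hg : Continuous fun s => k s * max (t - s) 0 := by fun_prop
  have h3 : ∫ s in (0 : ℝ)..t, k s * (t - s) = ∫ s in (0 : ℝ)..t, k s * max (t - s) 0 := by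
    rcases le_total 0 t with ht | ht
    · refine intervalIntegral.integral_congr fun s hs => ?_
      rw [uIcc_of_le ht] at hs
      rw [max_eq_left (by linarith [hs.2])]
    · refine intervalIntegral.integral_congr fun s hs => ?_
      rw [uIcc_of_ge ht] at hs
      rw [hlow s (by linarith [hs.2])]
      ring
  rw [h3]
  have e1 : ∫ s in (0 : ℝ)..(1 / 2 : ℝ), k s * max (t - s) 0 = 0 := by
    rw [intervalIntegral.integral_congr (g := fun _ => (0 : ℝ))]
    · simp
    · intro s hs
      rw [uIcc_of_le (by norm_num)] at hs
      simp only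
      rw [hlow s hs.2, zero_mul]
  have e2 : ∫ s in (2 : ℝ)..t, k s * max (t - s) 0 = 0 := by
    rw [intervalIntegral.integral_congr (g := fun _ => (0 : ℝ))]
    · simp
    · intro s hs
      simp only
      rcases le_total 2 t with h | h
      · rw [uIcc_of_le h] at hs
        rw [hhigh s hs.1, zero_mul]
      · rw [uIcc_of_ge h] at hs
        rw [max_eq_right (by linarith [hs.1]), mul_zero]
  have i1 := intervalIntegral.integral_add_adjacent_intervals (μ := volume)
    (hg.intervalIntegrable (0 : ℝ) (1 / 2)) (hg.intervalIntegrable (1 / 2 : ℝ) 2)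
  have i2 := intervalIntegral.integral_add_adjacent_intervals (μ := volume)
    (hg.intervalIntegrable (0 : ℝ) 2) (hg.intervalIntegrable (2 : ℝ) t)
  rw [← i2, e2, add_zero, ← i1, e1, zero_add]

theorem main : S_FK := by
  intro κ hκ x y hx hy
  obtain ⟨L, hL⟩ := hκ.lip
  have hc : Continuous κ := hL.continuous
  have hk : Continuous fun s => κ s / s := by
    rw [continuous_iff_continuousAt]
    intro s
    rcases eq_or_ne s 0 with rfl | hs
    · have : (fun s : ℝ => κ s / s) =ᶠ[𝓝 0] fun _ => 0 := by
        filter_upwards [Iio_mem_nhds (show (0 : ℝ) < 1 / 2 by norm_num)] with s hs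
        rw [hκ.low s (le_of_lt hs), zero_div]
      exact (continuousAt_const.congr this.symm)
    · exact hc.continuousAt.div continuousAt_id hs
  have hom : ∀ t, om κ t = ∫ s in (1 / 2 : ℝ)..2, κ s * max (t - s) 0 := fun t =>
    double κ hc hκ.low hκ.high t
  have hhh : ∀ t, hh κ t = ∫ s in (1 / 2 : ℝ)..2, κ s / s * max (t - s) 0 := fun t =>
    double (fun s => κ s / s) hk (fun t ht => by simp [hκ.low t ht])
      (fun t ht => by simp [hκ.high t ht]) t
  unfold fW
  rw [hom, hom, hhh]
  have c1 : Continuous fun s => κ s / s * max (x + y - s) 0 := by fun_prop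
  have c2 : Continuous fun s => κ s * max (x + y - s) 0 := by fun_prop
  have c3 : Continuous fun s => κ s * max (x - y - s) 0 := by fun_prop
  have hmain : ∫ s in (1 / 2 : ℝ)..2, κ s * Ks s x y
      = ∫ s in (1 / 2 : ℝ)..2, (((x - y) * (κ s / s * max (x + y - s) 0)
          + κ s * max (x + y - s) 0) / 2 + κ s * max (x - y - s) 0) := by
    refine intervalIntegral.integral_congr fun s hs => ?_
    rw [uIcc_of_le (by norm_num)] at hs
    have hs0 : s ≠ 0 := by
      have := hs.1
      intro h
      rw [h] at this
      norm_num at this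
    simp only [Ks]
    rcases le_total 0 (x + y - s) with h | h
    · rw [max_eq_left h]
      field_simp
      ring
    · rw [max_eq_right h]
      ring
  rw [hmain, intervalIntegral.integral_add, intervalIntegral.integral_div,
    intervalIntegral.integral_add, intervalIntegral.integral_const_mul]
  · exact (c1.const_smul (x - y)).intervalIntegrable _ _
  · exact c2.intervalIntegrable _ _
  · exact ((((continuous_const.mul c1).add c2).div_const 2)).intervalIntegrable _ _
  · exact c3.intervalIntegrable _ _

end Pool.Agent.W581.IW.Fk
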