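import Pool.Agent.W488.IW.Stm

/-! Project IW: removing the regularisation. -/

set_option autoImplicit false

namespace Pool.Agent.W581.IW.Qw

open Pool.Agent.W488.IW MeasureTheory Set Filter Topology

lemma cont_prim (k : ℝ → ℝ) (hk : Continuous k) : Continuous fun t => ∫ s in (0 : ℝ)..t, k s :=
  intervalIntegral.continuous_primitive (fun a b => hk.intervalIntegrable a b) 0

lemma cont_om1 {κ : ℝ → ℝ} (hκ : Bump κ) : Continuous (om1 κ) := by
  obtain ⟨L, hL⟩ := hκ.lip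
  exact cont_prim κ hL.continuous

lemma cont_om {κ : ℝ → ℝ} (hκ : Bump κ) : Continuous (om κ) :=
  cont_prim (om1 κ) (cont_om1 hκ)

lemma cont_div {κ : ℝ → ℝ} (hκ : Bump κ) : Continuous fun s => κ s / s := by
  obtain ⟨L, hL⟩ := hκ.lip
  have hc : Continuous κ := hL.continuous
  rw [continuous_iff_continuousAt]
  intro s
  rcases eq_or_ne s 0 with rfl | hs
  · have : (fun s : ℝ => κ s / s) =ᶠ[𝓝 0] fun _ => 0 := by
      filter_upwards [Iio_mem_nhds (show (0 : ℝ) < 1 / 2 by norm_num)] with s hs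
      rw [hκ.low s (le_of_lt hs), zero_div]
    exact (continuousAt_const.congr this.symm)
  · exact hc.continuousAt.div continuousAt_id hs

lemma cont_hh {κ : ℝ → ℝ} (hκ : Bump κ) : Continuous (hh κ) :=
  cont_prim (hh1 κ) (cont_prim _ (cont_div hκ))

lemma cont_fW {κ : ℝ → ℝ} (hκ : Bump κ) : Continuous fun q : ℝ × ℝ => fW κ q.1 q.2 := by
  have h1 := cont_hh hκ
  have h2 := cont_om hκ
  unfold fW
  fun_prop

lemma cont_ek (k : Idx) : Continuous (ek k) := by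
  unfold ek
  fun_prop

lemma cont_tp (Λ : Finset Idx) (w c : Idx → ℂ) : Continuous (tp Λ w c) := by
  unfold tp
  exact continuous_finsetSum _ fun k _ => continuous_const.mul (cont_ek k)

lemma cont_gd (Λ : Finset Idx) (c : Idx → ℂ) : Continuous (gd Λ c) := by
  unfold gd
  exact (cont_tp Λ ka c).prodMk (cont_tp Λ kb c)

lemma cont_XX : Continuous fun q : ℝ × ℂ => XX q.1 q.2 := by
  unfold XX
  fun_prop

lemma cont_Phi {κ : ℝ → ℝ} (hκ : Bump κ) (G : V → ℂ × ℂ) (hG : Continuous G) :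
    Continuous fun q : ℝ × ℝ × V => wT κ q.1 q.2.1 (G q.2.2) := by
  have hf := cont_fW hκ
  have c1 : Continuous fun q : ℝ × ℝ × V => G q.2.2 := hG.comp (by fun_prop)
  have c2 : Continuous fun q : ℝ × ℝ × V => XX q.1 (G q.2.2).1 :=
    cont_XX.comp (continuous_fst.prodMk (continuous_fst.comp c1))
  have c3 : Continuous fun q : ℝ × ℝ × V => XX q.1 (G q.2.2).2 :=
    cont_XX.comp (continuous_fst.prodMk (continuous_snd.comp c1))
  have c4 : Continuous fun q : ℝ × ℝ × V =>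
      fW κ (XX q.1 (G q.2.2).1) (XX q.1 (G q.2.2).2) :=
    hf.comp (c2.prodMk c3)
  have c5 : Continuous fun q : ℝ × ℝ × V => q.2.1 / 2 * (‖(G q.2.2).1‖ ^ 2 + ‖(G q.2.2).2‖ ^ 2) :=
    (Continuous.div_const (by fun_prop) 2).mul
      (((continuous_fst.comp c1).norm.pow 2).add ((continuous_snd.comp c1).norm.pow 2))
  exact c4.add c5

lemma lim_lemma {κ : ℝ → ℝ} (hκ : Bump κ) (G : V → ℂ × ℂ) (hG : Continuous G)
    (ε ϑ : ℕ → ℝ) (hε : ∀ n, 0 ≤ ε n ∧ ε n ≤ 1) (hϑ : ∀ n, 0 ≤ ϑ n ∧ ϑ n ≤ 1)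
    (hεlim : Tendsto ε atTop (𝓝 0)) (hϑlim : Tendsto ϑ atTop (𝓝 0)) :
    Tendsto (fun n : ℕ => ∫ x in Icc (0 : V) 1, wT κ (ε n) (ϑ n) (G x)) atTop
      (𝓝 (∫ x in Icc (0 : V) 1, fW κ ‖(G x).1‖ ‖(G x).2‖)) := by
  have hcont := cont_Phi hκ G hG
  obtain ⟨C, hC⟩ := ((isCompact_Icc (a := (0 : ℝ)) (b := 1)).prod
    ((isCompact_Icc (a := (0 : ℝ)) (b := 1)).prod (isCompact_Icc (a := (0 : V)) (b := 1))))
    |>.exists_bound_of_continuousOn hcont.continuousOn
  refine tendsto_integral_of_dominated_convergence (fun _ => C) ?_ ?_ ?_ ?_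
  · intro n
    have h5 : Continuous fun x : V => ((ε n, (ϑ n, x)) : ℝ × ℝ × V) := by fun_prop
    exact (hcont.comp h5).aestronglyMeasurable
  · exact integrableOn_const (hs := isCompact_Icc.measure_lt_top.ne)
  · intro n
    refine (ae_restrict_iff' measurableSet_Icc).2 (Eventually.of_forall fun x hx => ?_)
    have := hC (ε n, (ϑ n, x)) (Set.mk_mem_prod (hε n) (Set.mk_mem_prod (hϑ n) hx))
    exact this
  · refine Eventually.of_forall fun x => ?_
    have h6 : Tendsto (fun n : ℕ => ((ε n, (ϑ n, x)) : ℝ × ℝ × V)) atTop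
        (𝓝 (0, (0, x))) :=
      hεlim.prodMk_nhds (hϑlim.prodMk_nhds tendsto_const_nhds)
    have h7 := (hcont.tendsto (0, (0, x))).comp h6
    have h8 : wT κ 0 0 (G x) = fW κ ‖(G x).1‖ ‖(G x).2‖ := by
      simp only [wT, wW, XX]
      norm_num [Real.sqrt_sq (norm_nonneg _)]
    rw [← h8]
    exact h7

theorem main (h : S_QT) : S_QW := by
  intro κ hκ N c
  have hpos : ∀ n : ℕ, (0 : ℝ) < 1 / ((n : ℝ) + 1) := fun n => Nat.one_div_pos_of_nat
  choose ε hε using fun n : ℕ => h κ hκ (1 / ((n : ℝ) + 1)) (hpos n) (1 / ((n : ℝ) + 1)) (hpos n)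
  have hle1 : ∀ n : ℕ, 1 / ((n : ℝ) + 1) ≤ 1 := fun n => by
    rw [div_le_one (by positivity)]
    have : (0 : ℝ) ≤ n := Nat.cast_nonneg n
    linarith
  have hlim0 : Tendsto (fun n : ℕ => 1 / ((n : ℝ) + 1)) atTop (𝓝 0) :=
    tendsto_one_div_add_atTop_nhds_zero_nat
  have hεlim : Tendsto ε atTop (𝓝 0) :=
    squeeze_zero (fun n => (hε n).1.le) (fun n => (hε n).2.1.le) hlim0
  have key := lim_lemma hκ (gd (box N) c) (cont_gd (box N) c) ε (fun n => 1 / ((n : ℝ) + 1))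
    (fun n => ⟨(hε n).1.le, (hε n).2.1.le.trans (hle1 n)⟩) (fun n => ⟨(hpos n).le, hle1 n⟩)
    hεlim hlim0
  exact ge_of_tendsto key (Eventually.of_forall fun n => (hε n).2.2 N c)

end Pool.Agent.W581.IW.Qw
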